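import Mathlib

/-! A level-2 multi-tile whose indicator is never the window of a Gabor Riesz basis. -/

namespace Pool.Agent.Results.MP_9d6809_an.NoBasis

open MeasureTheory Set Filter Topology Complex
open scoped Real

/-- `Ω` multi-tiles `ℝ` by `Λ` at level `k`. -/
def MultiTiles (Ω Λ : Set ℝ) (k : ℕ) : Prop :=
  MeasurableSet Ω ∧ 0 < volume Ω ∧ volume Ω < ⊤ ∧
    ∀ᵐ x : ℝ, {l ∈ Λ | x - l ∈ Ω}.encard = k

/-- The Hilbert space `L²(ℝ)`. -/
abbrev L2 : Type := Lp ℂ 2 (volume : Measure ℝ)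

/-- Bounded invertible linear operators on `L²(ℝ)`. -/
abbrev Op : Type := L2 ≃L[ℂ] L2

/-- Orthonormal bases of `L²(ℝ)` indexed by `ι`. -/
abbrev ONB (ι : Type) : Type := HilbertBasis ι ℂ L2

/-- The function represented by the image of a basis vector. -/
noncomputable def image {ι : Type} (b : ONB ι) (T : Op) (i : ι) : L2 := T (b i)

/-- The family `F` is a Riesz basis of `L²(ℝ)`: the image of an orthonormal basis under a
bounded invertible linear operator. -/
def IsRieszBasis {ι : Type} (F : ι → ℝ → ℂ) : Prop :=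
  ∃ (b : ONB ι) (T : Op), ∀ i, (image b T i : ℝ → ℂ) =ᵐ[volume] F i

/-- The Gabor system `{e^{2πiγx} χ_Ω(x - λ) : λ ∈ Λ, γ ∈ Γ}`. -/
noncomputable def gabor (Ω Λ Γ : Set ℝ) (i : Λ × Γ) (x : ℝ) : ℂ :=
  cexp (2 * π * I * (i.2 : ℝ) * x) * Ω.indicator (fun _ => (1 : ℂ)) (x - i.1)

noncomputable def u (γ : ℝ) (n : ℕ) (x : ℝ) : ℂ :=
  cexp (2 * π * I * γ * x) * (Ico (n : ℝ) (n + 1)).indicator (fun _ => (1 : ℂ)) x

lemma norm_u (γ : ℝ) (n : ℕ) (x : ℝ) :
    ‖u γ n x‖ = ‖(Ico (n : ℝ) (n + 1)).indicator (fun _ => (1 : ℂ)) x‖ := by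
  have : (2 * π * I * γ * x : ℂ) = ((2 * π * γ * x : ℝ) : ℂ) * I := by push_cast; ring
  rw [u, norm_mul, this, norm_exp_ofReal_mul_I, one_mul]

lemma u_mem (γ : ℝ) (n : ℕ) : MemLp (u γ n) 2 := by
  refine (memLp_indicator_const (c := (1 : ℂ)) 2 (measurableSet_Ico (a := (n : ℝ)) (b := n + 1))
    (Or.inr (by simp))).of_le ?_ (Eventually.of_forall fun x => (norm_u γ n x).le)
  exact (Measurable.mul (by fun_prop)
    (measurable_const.indicator measurableSet_Ico)).aestronglyMeasurable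

lemma u_norm (γ : ℝ) (n : ℕ) : ‖(u_mem γ n).toLp‖ = 1 := by
  rw [Lp.norm_toLp, eLpNorm_congr_norm_ae (Eventually.of_forall (norm_u γ n)),
    eLpNorm_indicator_const measurableSet_Ico (by norm_num) (by norm_num)]
  simp

theorem result : MultiTiles (Ico 0 2) (range fun n : ℤ => (n : ℝ)) 2 ∧
    ∀ Γ : Set ℝ, ¬ IsRieszBasis (gabor (Ico 0 2) (range fun n : ℤ => (n : ℝ)) Γ) := by
  refine ⟨⟨measurableSet_Ico, by simp, by simp, Eventually.of_forall fun x => ?_⟩, ?_⟩
  · have : {l ∈ range fun n : ℤ => (n : ℝ) | x - l ∈ Ico (0 : ℝ) 2} =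
        {((⌊x⌋ : ℤ) : ℝ), ((⌊x⌋ - 1 : ℤ) : ℝ)} := by
      ext l
      simp only [mem_ofPred_eq, mem_range, mem_Ico, mem_insert_iff, mem_singleton_iff]
      have h1 := Int.floor_le x
      have h2 := Int.lt_floor_add_one x
      constructor
      · rintro ⟨⟨n, rfl⟩, h3, h4⟩
        have h5 : n ≤ ⌊x⌋ := Int.le_floor.mpr (by linarith)
        have h6 : ⌊x⌋ < n + 2 := Int.floor_lt.mpr (by push_cast; linarith)
        simp only [Int.cast_inj]; omega
      · rintro (rfl | rfl)
        · exact ⟨⟨_, rfl⟩, by linarith, by linarith⟩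
        · exact ⟨⟨_, rfl⟩, by push_cast; linarith, by push_cast; linarith⟩
    rw [this, encard_pair (by simp only [ne_eq, Int.cast_inj]; omega)]
    rfl
  · rintro Γ ⟨b, T, h⟩
    simp only [image] at h
    rcases Γ.eq_empty_or_nonempty with rfl | ⟨γ, hγ⟩
    · have h1 := (b.hasSum_repr (u_mem 0 0).toLp).unique hasSum_empty
      have h2 := u_norm 0 0
      rw [h1] at h2
      simp at h2
    let i : ℕ → (range fun n : ℤ => (n : ℝ)) × Γ := fun n => (⟨n, n, by simp⟩, ⟨γ, hγ⟩)
    have hi : Function.Injective i := fun n m h => by simpa [i] using h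
    have h1 : ∀ n, T (b (i n)) = (u_mem γ n).toLp + (u_mem γ (n + 1)).toLp := by
      intro n
      refine Lp.ext ?_
      filter_upwards [h (i n), Lp.coeFn_add (u_mem γ n).toLp (u_mem γ (n + 1)).toLp,
        (u_mem γ n).coeFn_toLp, (u_mem γ (n + 1)).coeFn_toLp] with x a1 a2 a3 a4
      rw [a1, a2, Pi.add_apply, a3, a4]
      simp only [gabor, u, i, ← mul_add, indicator, mem_Ico]
      congr 1
      push_cast
      split_ifs with c1 c2 c3 c4 c5 c6 <;> first | (exfalso; grind) | simp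
    have h2 : ∀ N, T (∑ n ∈ Finset.range N, (-1 : ℂ) ^ n • b (i n)) =
        (u_mem γ 0).toLp - (-1 : ℂ) ^ N • (u_mem γ N).toLp := by
      intro N
      induction N with
      | zero => simp
      | succ N ih =>
        rw [Finset.sum_range_succ, map_add, ih, map_smul, h1, pow_succ, mul_neg_one, neg_smul,
          smul_add]
        abel
    have h3 : ∀ N : ℕ, (N : ℝ) ≤ (‖T.symm.toContinuousLinearMap‖ * 2) ^ 2 := by
      intro N
      set v := ∑ n ∈ Finset.range N, (-1 : ℂ) ^ n • b (i n) with hv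
      have a1 : ‖T v‖ ≤ 2 := by
        rw [h2]
        refine (norm_sub_le _ _).trans ?_
        rw [norm_smul, u_norm, u_norm]
        norm_num
      have a2 : ‖v‖ ≤ ‖T.symm.toContinuousLinearMap‖ * 2 := by
        have := T.symm.toContinuousLinearMap.le_opNorm (T v)
        simp only [ContinuousLinearEquiv.coe_coe, ContinuousLinearEquiv.symm_apply_apply] at this
        exact this.trans (mul_le_mul_of_nonneg_left a1 (norm_nonneg _))
      have a3 : ‖v‖ ^ 2 = N := by
        have := (b.orthonormal.comp i hi).inner_sum (fun n => (-1 : ℂ) ^ n)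
          (fun n => (-1 : ℂ) ^ n) (Finset.range N)
        simp only [Function.comp_apply, ← hv, inner_self_eq_norm_sq_to_K, map_pow, map_neg,
          map_one, ← mul_pow] at this
        simp at this
        exact_mod_cast this
      rw [← a3]
      exact pow_le_pow_left₀ (norm_nonneg _) a2 2
    obtain ⟨N, hN⟩ := exists_nat_gt ((‖T.symm.toContinuousLinearMap‖ * 2) ^ 2)
    exact absurd (h3 N) (not_le.mpr hN)

end Pool.Agent.Results.MP_9d6809_an.NoBasis
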